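import Mathlib
import Pool.Agent.Y384.CecfLower
import Pool.Agent.Y384.CecfUpper

set_option autoImplicit false

namespace Pool.Agent.Results.MP_cecf76_co.Growth

open Finset

/-- `I` is an `ε`-intersecting index set of the sequence `A` of subsets of an `n`-set. -/
def EpsIntersecting {n m : ℕ} (ε : ℝ) (A : Fin m → Finset (Fin n)) (I : Finset (Fin m)) : Prop :=
  ∀ i ∈ I, ∀ j ∈ I, i ≠ j → ε * n < ((A i ∩ A j).card : ℝ)

/-- every sequence of `m` subsets of an `n`-set with more than `c n` elements each has an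
`ε`-intersecting index set of size `k` -/
def Forced (n m : ℕ) (c ε : ℝ) (k : ℕ) : Prop :=
  ∀ A : Fin m → Finset (Fin n), (∀ i, c * n < ((A i).card : ℝ)) →
    ∃ I : Finset (Fin m), EpsIntersecting ε A I ∧ I.card = k

/-- `f(n,m,c,ε)` -/
noncomputable def f (n m : ℕ) (c ε : ℝ) : ℕ := sSup {k : ℕ | Forced n m c ε k}

theorem EpsIntersecting.subset {n m : ℕ} {ε : ℝ} {A : Fin m → Finset (Fin n)}
    {I J : Finset (Fin m)} (h : EpsIntersecting ε A I) (hJ : J ⊆ I) : EpsIntersecting ε A J :=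
  fun i hi j hj hij => h i (hJ hi) j (hJ hj) hij

theorem exists_seq (n m : ℕ) (c : ℝ) (hn : 1 ≤ n) (hc : c < 1) :
    ∃ A : Fin m → Finset (Fin n), ∀ i, c * n < ((A i).card : ℝ) := by
  refine ⟨fun _ => univ, fun i => ?_⟩
  rw [card_univ, Fintype.card_fin]
  have : (0 : ℝ) < n := by exact_mod_cast hn
  nlinarith

theorem isGreatest_f (n m : ℕ) (c ε : ℝ) (hn : 1 ≤ n) (hc : c < 1) :
    IsGreatest {k : ℕ | Forced n m c ε k} (f n m c ε) := by
  have hb : BddAbove {k : ℕ | Forced n m c ε k} := by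
    refine ⟨m, fun k hk => ?_⟩
    obtain ⟨A, hA⟩ := exists_seq n m c hn hc
    obtain ⟨I, -, hI⟩ := hk A hA
    rw [← hI]
    simpa using card_le_univ I
  have hne : {k : ℕ | Forced n m c ε k}.Nonempty :=
    ⟨0, fun A _ => ⟨∅, fun i hi => absurd hi (notMem_empty i), card_empty⟩⟩
  exact ⟨Nat.sSup_mem hne hb, fun k hk => le_csSup hb hk⟩

theorem le_f {n m : ℕ} {c ε : ℝ} (hn : 1 ≤ n) (hc : c < 1) (b : ℝ)
    (h : ∀ A : Fin m → Finset (Fin n), (∀ i, c * n < ((A i).card : ℝ)) →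
      ∃ I : Finset (Fin m), EpsIntersecting ε A I ∧ b ≤ (I.card : ℝ)) : b ≤ f n m c ε := by
  have h1 : Forced n m c ε ⌈b⌉₊ := by
    intro A hA
    obtain ⟨I, hI, hb⟩ := h A hA
    obtain ⟨J, hJ, hJc⟩ := Finset.exists_subset_card_eq (Nat.ceil_le.2 hb)
    exact ⟨J, hI.subset hJ, hJc⟩
  have h2 := (isGreatest_f n m c ε hn hc).2 h1
  calc b ≤ ⌈b⌉₊ := Nat.le_ceil b
    _ ≤ _ := by exact_mod_cast h2

theorem f_le {n m : ℕ} {c ε : ℝ} (hn : 1 ≤ n) (hc : c < 1) (b : ℝ)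
    (A : Fin m → Finset (Fin n)) (hA : ∀ i, c * n < ((A i).card : ℝ))
    (h : ∀ I : Finset (Fin m), EpsIntersecting ε A I → (I.card : ℝ) ≤ b) : (f n m c ε : ℝ) ≤ b := by
  obtain ⟨I, hI, hc⟩ := (isGreatest_f n m c ε hn hc).1 A hA
  rw [← hc]
  exact h I hI

theorem lower_pow (c : ℝ) (hc : 0 < c) (hc1 : c < 1) (ε δ : ℝ) (hδ : 0 < δ) (hε : 0 < ε)
    (h : ε ≤ c ^ (1 + 1 / δ)) (n m : ℕ) (hn : 1 ≤ n) (hm : 1 ≤ m) :
    c / 2 * m * Real.exp (-(δ * Real.log m)) ≤ f n m c ε :=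
  le_f hn hc1 _ fun A hA => Pool.Agent.Y384.Cecf.lower_pow hn hm c ε δ hc hc1 hδ hε h A hA

theorem lower_small (c : ℝ) (hc : 0 < c) (hc1 : c < 1) (ε : ℝ) (hε : 0 < ε)
    (h : ε ≤ c / 2) (n m : ℕ) (hn : 1 ≤ n) :
    c / 2 * m * Real.exp (-(ε * Real.log (2 / c) * n)) ≤ f n m c ε :=
  le_f hn hc1 _ fun A hA => Pool.Agent.Y384.Cecf.lower_small hn c ε hc hc1 hε h A hA

theorem upper (c : ℝ) (hc1 : c ≤ 1 / 2) (ε : ℝ) (hε : 0 < ε) (hε1 : ε ≤ 1)
    (n m : ℕ) (hn : 1 ≤ n) (hm : 1 ≤ m) :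
    (f n m c ε : ℝ) ≤ 8 * m * Real.exp (-(ε ^ 2 / 8 * min (Real.log m) n)) := by
  obtain ⟨A, hA, h⟩ := Pool.Agent.Y384.Cecf.upper hn hm c ε hc1 hε hε1
  exact f_le hn (by linarith) _ A hA h

/-- The growth of `f(n,m,c,ε)`. -/
theorem result :
    -- `f n m c ε` is the number of the problem
    (∀ (n m : ℕ) (c ε : ℝ), 1 ≤ n → c < 1 → IsGreatest {k : ℕ | Forced n m c ε k} (f n m c ε)) ∧
    -- growth, uniformly in `n` and `m`
    (∀ c : ℝ, 0 < c → c ≤ 1 / 2 → ∀ δ : ℝ, 0 < δ → ∃ ε₀ : ℝ, 0 < ε₀ ∧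
      ∀ ε : ℝ, 0 < ε → ε ≤ ε₀ → ∃ δ' : ℝ, 0 < δ' ∧ ∀ n m : ℕ, 1 ≤ n → 1 ≤ m →
        c / 2 * m * Real.exp (-(δ * min (Real.log m) n)) ≤ f n m c ε ∧
        (f n m c ε : ℝ) ≤ 8 * m * Real.exp (-(δ' * min (Real.log m) n))) ∧
    -- explicit lower bound
    (∀ c : ℝ, 0 < c → c ≤ 1 / 2 → ∀ δ : ℝ, 0 < δ → ∀ ε : ℝ, 0 < ε → ε ≤ c ^ (1 + 1 / δ) →
      ∀ n m : ℕ, 1 ≤ n → 1 ≤ m → c / 2 * (m : ℝ) ^ (1 - δ) ≤ f n m c ε) ∧
    -- the conjecture for `m = n`
    (∀ c : ℝ, 0 < c → c ≤ 1 / 2 → ∀ ε : ℝ, 0 < ε → ε ≤ c ^ 3 → ∀ n : ℕ, 1 ≤ n →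
      c / 4 * (n : ℝ) ^ (1 / 2 : ℝ) < f n n c ε) ∧
    -- no linear lower bound for `m < n`
    (∀ c : ℝ, 0 < c → c ≤ 1 / 2 → ∀ ε : ℝ, 0 < ε →
      ¬ ∃ η : ℝ, 0 < η ∧ ∀ n m : ℕ, 1 ≤ m → m < n → η * m ≤ f n m c ε) := by
  refine ⟨isGreatest_f, ?_, ?_, ?_, ?_⟩
  · intro c hc hc2 δ hδ
    have hc1 : c < 1 := by linarith
    set L := Real.log (2 / c) with hL
    have hL0 : 0 < L := Real.log_pos (by rw [lt_div_iff₀ hc]; linarith)
    refine ⟨min (c ^ (1 + 1 / δ)) (min (c / 2) (min 1 (δ / L))), by positivity, ?_⟩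
    intro ε hε hε0
    have h1 : ε ≤ c ^ (1 + 1 / δ) := hε0.trans (min_le_left _ _)
    have h2 : ε ≤ c / 2 := hε0.trans ((min_le_right _ _).trans (min_le_left _ _))
    have h3 : ε ≤ 1 := hε0.trans ((min_le_right _ _).trans ((min_le_right _ _).trans
      (min_le_left _ _)))
    have h4 : ε ≤ δ / L := hε0.trans ((min_le_right _ _).trans ((min_le_right _ _).trans
      (min_le_right _ _)))
    refine ⟨ε ^ 2 / 8, by positivity, fun n m hn hm => ⟨?_, upper c hc2 ε hε h3 n m hn hm⟩⟩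
    rcases le_total (Real.log m) n with h | h
    · rw [min_eq_left h]
      exact lower_pow c hc hc1 ε δ hδ hε h1 n m hn hm
    · rw [min_eq_right h]
      refine le_trans ?_ (lower_small c hc hc1 ε hε h2 n m hn)
      apply mul_le_mul_of_nonneg_left _ (by positivity)
      apply Real.exp_le_exp.2
      rw [le_div_iff₀ hL0] at h4
      have : ε * L * n ≤ δ * n := mul_le_mul_of_nonneg_right h4 (Nat.cast_nonneg _)
      linarith
  · intro c hc hc2 δ hδ ε hε h1 n m hn hm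
    have hm0 : (0 : ℝ) < m := by exact_mod_cast hm
    have h2 := lower_pow c hc (by linarith) ε δ hδ hε h1 n m hn hm
    have h3 : (m : ℝ) ^ (1 - δ) = m * Real.exp (-(δ * Real.log m)) := by
      rw [Real.rpow_def_of_pos hm0, mul_sub, mul_one, sub_eq_add_neg, Real.exp_add,
        Real.exp_log hm0]
      congr 2; ring
    rw [h3, ← mul_assoc]
    exact h2
  · intro c hc hc2 ε hε h1 n hn
    have hn0 : (0 : ℝ) < n := by exact_mod_cast hn
    have h1' : ε ≤ c ^ (1 + 1 / (1 / 2 : ℝ)) := by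
      have : (1 + 1 / (1 / 2 : ℝ)) = ((3 : ℕ) : ℝ) := by norm_num
      rw [this, Real.rpow_natCast]; exact h1
    have h2 := lower_pow c hc (by linarith) ε (1 / 2) (by norm_num) hε h1' n n hn hn
    have h3 : (n : ℝ) ^ (1 / 2 : ℝ) = n * Real.exp (-(1 / 2 * Real.log n)) := by
      have : (1 / 2 : ℝ) = 1 - 1 / 2 := by norm_num
      rw [this, Real.rpow_def_of_pos hn0, mul_sub, mul_one, sub_eq_add_neg, Real.exp_add,
        Real.exp_log hn0]
      congr 2; ring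
    have h4 : (0 : ℝ) < (n : ℝ) ^ (1 / 2 : ℝ) := by positivity
    have h5 : c / 2 * (n : ℝ) ^ (1 / 2 : ℝ) ≤ f n n c ε := by
      rw [h3, ← mul_assoc]; exact h2
    nlinarith
  · rintro c hc hc2 ε hε ⟨η, hη, h⟩
    -- monotonicity in ε
    set ε' := min ε 1 with hε'
    have hε'0 : 0 < ε' := by positivity
    have hc1 : c < 1 := by linarith
    have hmono : ∀ n m : ℕ, 1 ≤ n → (f n m c ε : ℝ) ≤ f n m c ε' := by
      intro n m hn
      have h1 : Forced n m c ε' (f n m c ε) := by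
        intro A hA
        obtain ⟨I, hI, hIc⟩ := (isGreatest_f n m c ε hn hc1).1 A hA
        refine ⟨I, fun i hi j hj hij => lt_of_le_of_lt ?_ (hI i hi j hj hij), hIc⟩
        exact mul_le_mul_of_nonneg_right (min_le_left _ _) (Nat.cast_nonneg _)
      exact_mod_cast (isGreatest_f n m c ε' hn hc1).2 h1
    have h1 : ∀ m : ℕ, 1 ≤ m → η ≤ 8 * Real.exp (-(ε' ^ 2 / 8 * Real.log m)) := by
      intro m hm
      have hm0 : (0 : ℝ) < m := by exact_mod_cast hm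
      have h2 := h (m + 1) m hm (by omega)
      have h3 := hmono (m + 1) m (by omega)
      have h4 := upper c hc2 ε' hε'0 (min_le_right _ _) (m + 1) m (by omega) hm
      have h5 : min (Real.log m) ((m + 1 : ℕ) : ℝ) = Real.log m := by
        apply min_eq_left
        have := Real.log_le_sub_one_of_pos hm0
        push_cast
        linarith
      rw [h5] at h4
      have h6 : η * m ≤ 8 * Real.exp (-(ε' ^ 2 / 8 * Real.log m)) * m := by
        calc η * m ≤ 8 * m * Real.exp (-(ε' ^ 2 / 8 * Real.log m)) := by linarith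
          _ = _ := by ring
      exact le_of_mul_le_mul_right h6 hm0
    have ht : Filter.Tendsto (fun m : ℕ => 8 * Real.exp (-(ε' ^ 2 / 8 * Real.log m)))
        Filter.atTop (nhds (8 * 0)) := by
      apply Filter.Tendsto.const_mul
      apply Real.tendsto_exp_neg_atTop_nhds_zero.comp
      apply Filter.Tendsto.const_mul_atTop (by positivity)
      exact Real.tendsto_log_atTop.comp tendsto_natCast_atTop_atTop
    have h7 : η ≤ 8 * 0 := by
      refine ge_of_tendsto ht ?_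
      filter_upwards [Filter.eventually_ge_atTop 1] with m hm
      exact h1 m hm
    linarith

end Pool.Agent.Results.MP_cecf76_co.Growth
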